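import Pool.Agent.Lib.MP_7d1258_an.Regular

/-!
# MP_7d1258_an: local peak sets for `A^∞(B)` are peak sets

`B` is the open unit ball of `ℂ^n`, `n > 1`. A compact subset of the unit sphere which is locally
a peak set for `A^∞(B)` is a peak set for `A^∞(B)`.
-/

namespace Pool.Agent.Results.MP_7d1258_an.LocalPeak

open Metric
open scoped ContDiff

/-- the algebra `A^∞(B)`: holomorphic in the open unit ball `B` of `ℂ^n`, and `C^∞` on the closed
ball (real derivatives of all orders up to the boundary) -/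
def AInf (n : ℕ) : Set (EuclideanSpace ℂ (Fin n) → ℂ) :=
  {f | DifferentiableOn ℂ f (ball 0 1) ∧ ContDiffOn ℝ ∞ f (closedBall 0 1)}

/-- `K` is a peak set for `A^∞(B)`: some `f ∈ A^∞(B)` satisfies `f = 1` on `K` and `|f| < 1` on
the rest of the closed ball -/
def IsPeakSet {n : ℕ} (K : Set (EuclideanSpace ℂ (Fin n))) : Prop :=
  ∃ f ∈ AInf n, (∀ z ∈ K, f z = 1) ∧ ∀ z ∈ closedBall 0 1 \ K, ‖f z‖ < 1

/-- `K` is locally a peak set for `A^∞(B)`: every point of `K` has a neighbourhood `V` in `ℂ^n`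
such that `K ∩ closure V` is a peak set for `A^∞(B)` -/
def IsLocallyPeakSet {n : ℕ} (K : Set (EuclideanSpace ℂ (Fin n))) : Prop :=
  ∀ p ∈ K, ∃ V ∈ nhds p, IsPeakSet (K ∩ closure V)

/-- For `n > 1` and compact `K` in the unit sphere of `ℂ^n`: `K` is locally a peak set for
`A^∞(B)` if and only if it is a peak set for `A^∞(B)`; more generally, if every point of `K` has
a neighbourhood relative to `K` which is a peak set, then `K` is the peak set of a function which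
is holomorphic in `B` and `C^∞` on the whole of `ℂ^n`. -/
theorem result : ∀ n : ℕ, 1 < n → ∀ K : Set (EuclideanSpace ℂ (Fin n)), IsCompact K →
    K ⊆ sphere 0 1 →
    (IsLocallyPeakSet K ↔ IsPeakSet K) ∧
    ((∀ p ∈ K, ∃ P ⊆ K, IsPeakSet P ∧ P ∈ nhdsWithin p K) →
      ∃ f : EuclideanSpace ℂ (Fin n) → ℂ, ContDiff ℝ ∞ f ∧ DifferentiableOn ℂ f (ball 0 1) ∧
        (∀ z ∈ K, f z = 1) ∧ ∀ z ∈ closedBall 0 1 \ K, ‖f z‖ < 1) := by
  intro n hn K hK hKS
  have key : (∀ p ∈ K, ∃ P ⊆ K, IsPeakSet P ∧ P ∈ nhdsWithin p K) →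
      ∃ f : EuclideanSpace ℂ (Fin n) → ℂ, ContDiff ℝ ∞ f ∧ DifferentiableOn ℂ f (ball 0 1) ∧
        (∀ z ∈ K, f z = 1) ∧ ∀ z ∈ closedBall 0 1 \ K, ‖f z‖ < 1 := by
    intro h
    refine Pool.Agent.PeakLib.main_rel n hn K hK hKS fun p hp => ?_
    obtain ⟨P, hPK, ⟨f, ⟨h1, h2⟩, h3, h4⟩, hP⟩ := h p hp
    exact ⟨P, hPK, ⟨f, h1, h2, h3, h4⟩, hP⟩
  refine ⟨⟨fun h => ?_, fun h p hp => ⟨Set.univ, Filter.univ_mem, ?_⟩⟩, key⟩
  · obtain ⟨f, h1, h2, h3, h4⟩ := key fun p hp => by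
      obtain ⟨V, hV, hpk⟩ := h p hp
      refine ⟨K ∩ closure V, Set.inter_subset_left, hpk, ?_⟩
      exact Filter.inter_mem self_mem_nhdsWithin
        (mem_nhdsWithin_of_mem_nhds (Filter.mem_of_superset hV subset_closure))
    exact ⟨f, ⟨h2, h1.contDiffOn⟩, h3, h4⟩
  · rwa [closure_univ, Set.inter_univ]

end Pool.Agent.Results.MP_7d1258_an.LocalPeak
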